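import Pool.Agent.PDM.Stmts

/-!
# PDM, row INS: a new vertex in a face (after the proof of SUB by helper17)
-/

set_option autoImplicit false

namespace Pool.Agent.PDM.H19

open Pool.Agent.PDN

variable {V : Type}

/-- `(x, y)` is one of the three edges of the face `(u, v, w)` -/
def R (u v w x y : V) : Prop := (x = u ∧ y = v) ∨ (x = v ∧ y = w) ∨ (x = w ∧ y = u)

/-- the new faces -/
def ff (T : Tri V) (u v w : V) : Option V → Option V → Option V → Prop
  | some x, some y, some z => T.f x y z ∧ ¬ R u v w x y
  | none, some x, some y => R u v w x y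
  | some x, some y, none => R u v w x y
  | some y, none, some x => R u v w x y
  | none, none, _ => False
  | none, some _, none => False
  | some _, none, none => False

theorem r1 {u v w : V} : R u v w u v := Or.inl ⟨rfl, rfl⟩
theorem r2 {u v w : V} : R u v w v w := Or.inr (Or.inl ⟨rfl, rfl⟩)
theorem r3 {u v w : V} : R u v w w u := Or.inr (Or.inr ⟨rfl, rfl⟩)

theorem R_next {u v w x y : V} (h : R u v w x y) : ∃ z, R u v w y z := by
  rcases h with ⟨rfl, rfl⟩ | ⟨rfl, rfl⟩ | ⟨rfl, rfl⟩
  · exact ⟨_, r2⟩
  · exact ⟨_, r3⟩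
  · exact ⟨_, r1⟩

theorem R_prev {u v w x y : V} (h : R u v w x y) : ∃ z, R u v w z x := by
  rcases h with ⟨rfl, rfl⟩ | ⟨rfl, rfl⟩ | ⟨rfl, rfl⟩
  · exact ⟨_, r3⟩
  · exact ⟨_, r1⟩
  · exact ⟨_, r2⟩

/-- the configuration -/
structure Cf (T : Tri V) (u v w : V) : Prop where
  f1 : T.f u v w

namespace Cf

variable {T : Tri V} {u v w : V} (h : Cf T u v w)
include h

theorem f2 : T.f v w u := T.cyc h.f1
theorem f3 : T.f w u v := T.cyc h.f2
theorem n1 : u ≠ v := T.ne h.f1
theorem n2 : v ≠ w := T.ne h.f2
theorem n3 : w ≠ u := T.ne h.f3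

theorem R_face {x y : V} (hR : R u v w x y) : ∃ z, T.f x y z ∧ R u v w y z ∧ R u v w z x := by
  rcases hR with ⟨rfl, rfl⟩ | ⟨rfl, rfl⟩ | ⟨rfl, rfl⟩
  · exact ⟨_, h.f1, r2, r3⟩
  · exact ⟨_, h.f2, r3, r1⟩
  · exact ⟨_, h.f3, r1, r2⟩

theorem R_fun {x y y' : V} (h1 : R u v w x y) (h2 : R u v w x y') : y = y' := by
  have n1 := h.n1
  have n2 := h.n2
  have n3 := h.n3
  unfold R at h1 h2
  grind

theorem R_inj {x x' y : V} (h1 : R u v w x y) (h2 : R u v w x' y) : x = x' := by
  have n1 := h.n1
  have n2 := h.n2
  have n3 := h.n3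
  unfold R at h1 h2
  grind

theorem cyc' : ∀ {p q r : Option V}, ff T u v w p q r → ff T u v w q r p
  | some x, some y, some z, h1 => by
    refine ⟨T.cyc h1.1, fun hR => h1.2 ?_⟩
    obtain ⟨t, ht, _, hR2⟩ := h.R_face hR
    have : t = x := T.uniq ht (T.cyc h1.1)
    rwa [this] at hR2
  | none, some _, some _, h1 => h1
  | some _, some _, none, h1 => h1
  | some _, none, some _, h1 => h1

theorem uniq' : ∀ {p q r r' : Option V}, ff T u v w p q r → ff T u v w p q r' → r = r'
  | some _, some _, some _, some _, h1, h2 => congrArg some (T.uniq h1.1 h2.1)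
  | some _, some _, some _, none, h1, h2 => absurd h2 h1.2
  | some _, some _, none, some _, h1, h2 => absurd h1 h2.2
  | some _, some _, none, none, _, _ => rfl
  | none, some _, some _, some _, h1, h2 => congrArg some (h.R_fun h1 h2)
  | some _, none, some _, some _, h1, h2 => congrArg some (h.R_inj h1 h2)

omit h in
/-- an old edge is an edge -/
theorem old_edge {x y z : V} (hf : T.f x y z) : ∃ r, ff T u v w (some x) (some y) r := by
  by_cases hR : R u v w x y
  · exact ⟨none, hR⟩
  · exact ⟨some z, hf, hR⟩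

theorem edge_old {x y : V} {r : Option V} (hf : ff T u v w (some x) (some y) r) :
    ∃ z, T.f x y z := by
  cases r with
  | some z => exact ⟨z, hf.1⟩
  | none =>
    obtain ⟨z, hz, _⟩ := h.R_face hf
    exact ⟨z, hz⟩

theorem opp' : ∀ {p q r : Option V}, ff T u v w p q r → ∃ r', ff T u v w q p r'
  | some x, some y, r, h1 => by
    obtain ⟨z, hz⟩ := h.edge_old h1
    obtain ⟨t, ht⟩ := T.opp hz
    exact old_edge ht
  | none, some x, some y, h1 => by
    obtain ⟨z, hz⟩ := R_prev h1
    exact ⟨some z, hz⟩
  | some y, none, some x, h1 => by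
    obtain ⟨z, hz⟩ := R_next h1
    exact ⟨some z, hz⟩

theorem ne' : ∀ {p q r : Option V}, ff T u v w p q r → p ≠ q
  | some x, some y, r, h1 => by
    obtain ⟨z, hz⟩ := h.edge_old h1
    intro h2
    exact T.ne hz (Option.some.inj h2)
  | none, some x, some y, _ => by
    intro h2
    exact absurd h2 (by simp)
  | some y, none, some x, _ => by
    intro h2
    exact absurd h2 (by simp)

/-- the images of an old pair of consecutive neighbours -/
theorem step {x y z : V} (hf : T.f x y z) :
    Relation.ReflTransGen (ff T u v w (some x)) (some y) (some z) := by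
  by_cases hR : R u v w x y
  · obtain ⟨t, ht, _, hR2⟩ := h.R_face hR
    have e : t = z := T.uniq ht hf
    rw [e] at hR2
    have s1 : ff T u v w (some x) (some y) none := hR
    have s2 : ff T u v w (some x) none (some z) := hR2
    exact (Relation.ReflTransGen.single s1).tail s2
  · have s1 : ff T u v w (some x) (some y) (some z) := ⟨hf, hR⟩
    exact Relation.ReflTransGen.single s1

theorem link_old {x y y' : V} (h1 : ∃ z, T.f x y z) (h2 : ∃ z, T.f x y' z) :
    Relation.ReflTransGen (ff T u v w (some x)) (some y) (some y') := by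
  have h3 := T.link h1 h2
  induction h3 with
  | refl => exact Relation.ReflTransGen.refl
  | @tail y₁ y₂ hy hs ih =>
    obtain ⟨z, hz⟩ := T.opp (T.cyc (T.cyc hs))
    exact (ih ⟨y₂, hs⟩).trans (h.step hs)

theorem to_old {x : V} : ∀ {q r : Option V}, ff T u v w (some x) q r →
    (∃ y, (∃ z, T.f x y z) ∧ Relation.ReflTransGen (ff T u v w (some x)) q (some y)) ∧
    ∃ y, (∃ z, T.f x y z) ∧ Relation.ReflTransGen (ff T u v w (some x)) (some y) q
  | some y, r, hf => by
    have h1 := h.edge_old hf
    exact ⟨⟨y, h1, Relation.ReflTransGen.refl⟩, y, h1, Relation.ReflTransGen.refl⟩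
  | none, some t, hf => by
    have h0 : R u v w t x := hf
    obtain ⟨y, hy, hR, hR2⟩ := h.R_face h0
    refine ⟨⟨t, ?_, Relation.ReflTransGen.single hf⟩, y, ?_, ?_⟩
    · obtain ⟨s, hs⟩ := T.opp hy
      exact ⟨s, hs⟩
    · exact ⟨t, T.cyc hy⟩
    · have s1 : ff T u v w (some x) (some y) none := hR
      exact Relation.ReflTransGen.single s1

theorem link' : ∀ {p q r : Option V}, (∃ z, ff T u v w p q z) → (∃ z, ff T u v w p r z) →
    Relation.ReflTransGen (ff T u v w p) q r
  | some x, q, r, ⟨z, hz⟩, ⟨t, ht⟩ => by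
    obtain ⟨⟨y, hy, h1⟩, _⟩ := h.to_old hz
    obtain ⟨_, y', hy', h2⟩ := h.to_old ht
    exact (h1.trans (h.link_old hy hy')).trans h2
  | none, some x, some y, ⟨some z, hz⟩, ⟨some t, ht⟩ => by
    have s1 : ff T u v w none (some u) (some v) := r1
    have s2 : ff T u v w none (some v) (some w) := r2
    have s3 : ff T u v w none (some w) (some u) := r3
    have t1 := Relation.ReflTransGen.single s1
    have t2 := Relation.ReflTransGen.single s2
    have t3 := Relation.ReflTransGen.single s3
    have c1 : ∀ x, R u v w x z → Relation.ReflTransGen (ff T u v w none) (some x) (some u) := by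
      rintro x (⟨rfl, _⟩ | ⟨rfl, _⟩ | ⟨rfl, _⟩)
      · exact Relation.ReflTransGen.refl
      · exact t2.trans t3
      · exact t3
    have c2 : ∀ y, R u v w y t → Relation.ReflTransGen (ff T u v w none) (some u) (some y) := by
      rintro y (⟨rfl, _⟩ | ⟨rfl, _⟩ | ⟨rfl, _⟩)
      · exact Relation.ReflTransGen.refl
      · exact t1
      · exact t1.trans t2
    exact (c1 x hz).trans (c2 y ht)

/-- the triangulation with a new vertex in the face -/
def tri : Tri (Option V) where
  f := ff T u v w
  cyc := h.cyc'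
  uniq := h.uniq'
  opp := h.opp'
  ne := h.ne'
  link := h.link'

theorem adj_some {x y : V} : (tri h).Adj (some x) (some y) ↔ T.Adj x y := by
  constructor
  · rintro ⟨r, hr⟩
    exact h.edge_old hr
  · rintro ⟨z, hz⟩
    exact old_edge hz

theorem adj_none {y : V} : (tri h).Adj none (some y) ↔ y = u ∨ y = v ∨ y = w := by
  constructor
  · rintro ⟨r, hr⟩
    cases r with
    | none => exact absurd hr (by exact fun h => h)
    | some t =>
      have h1 : R u v w y t := hr
      unfold R at h1
      tauto
  · rintro (rfl | rfl | rfl)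
    · exact ⟨some _, r1⟩
    · exact ⟨some _, r2⟩
    · exact ⟨some _, r3⟩

omit h in
theorem card_opt [Finite V] (p : Option V → Prop) (hp : p none) :
    Nat.card {q // p q} = Nat.card {y : V // p (some y)} + 1 := by
  have e : {q // p q} ≃ Option {y : V // p (some y)} :=
    { toFun := fun q => match q with
        | ⟨none, _⟩ => none
        | ⟨some y, hy⟩ => some ⟨y, hy⟩
      invFun := fun q => match q with
        | none => ⟨none, hp⟩
        | some y => ⟨some y.1, y.2⟩
      left_inv := by
        rintro ⟨_ | y, hy⟩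
        · rfl
        · rfl
      right_inv := by
        rintro (_ | y)
        · rfl
        · rfl }
  rw [Nat.card_congr e, Finite.card_option]

omit h in
theorem card_opt' (p : Option V → Prop) (hp : ¬ p none) :
    Nat.card {q // p q} = Nat.card {y : V // p (some y)} := by
  refine Nat.card_congr
    { toFun := fun q => match q with
        | ⟨none, hq⟩ => absurd hq hp
        | ⟨some y, hy⟩ => ⟨y, hy⟩
      invFun := fun y => ⟨some y.1, y.2⟩
      left_inv := by
        rintro ⟨_ | y, hy⟩
        · exact absurd hy hp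
        · rfl
      right_inv := by
        rintro ⟨y, hy⟩
        rfl }

theorem card_same {x : V} :
    Nat.card {y : V // (tri h).Adj (some x) (some y)} = Nat.card {y : V // T.Adj x y} :=
  Nat.card_congr (Equiv.subtypeEquivRight fun _ => h.adj_some)

theorem deg_eq {x : V} (h1 : x ≠ u) (h2 : x ≠ v) (h3 : x ≠ w) :
    (tri h).deg (some x) = T.deg x := by
  unfold Tri.deg
  rw [card_opt' (fun q => (tri h).Adj (some x) q) ?_]
  · exact h.card_same
  · intro ha
    have h4 := h.adj_none.1 ((tri h).adj_symm ha)
    tauto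

theorem deg_add [Finite V] {x : V} (h1 : x = u ∨ x = v ∨ x = w) :
    (tri h).deg (some x) = T.deg x + 1 := by
  unfold Tri.deg
  rw [card_opt (fun q => (tri h).Adj (some x) q) ((tri h).adj_symm (h.adj_none.2 h1)),
    h.card_same]

theorem deg_none [Finite V] : (tri h).deg none = 3 := by
  classical
  have n1 := h.n1
  have n2 := h.n2
  have n3 := h.n3
  unfold Tri.deg
  rw [card_opt' (fun q => (tri h).Adj none q) (fun hq => (tri h).adj_ne hq rfl)]
  have e : {y : V // (tri h).Adj none (some y)} ≃ {y : V // y ∈ ({u, v, w} : Finset V)} :=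
    Equiv.subtypeEquivRight fun y => by
      rw [h.adj_none]
      simp
  rw [Nat.card_congr e, Nat.card_eq_fintype_card, Fintype.card_coe]
  rw [Finset.card_insert_of_notMem, Finset.card_insert_of_notMem, Finset.card_singleton]
  · simpa using n2
  · simp only [Finset.mem_insert, Finset.mem_singleton, not_or]
    exact ⟨n1, n3.symm⟩

theorem conn (hc : T.graph.Connected) : (tri h).graph.Connected := by
  have hu : (tri h).graph.Adj none (some u) := h.adj_none.2 (Or.inl rfl)
  have h2 : ∀ x y : V, (tri h).graph.Reachable (some x) (some y) := by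
    intro x y
    obtain ⟨p⟩ := hc.preconnected x y
    induction p with
    | nil => exact SimpleGraph.Reachable.refl _
    | @cons a b _ hxy _ ih =>
      have h3 : (tri h).graph.Adj (some a) (some b) := h.adj_some.2 hxy
      exact h3.reachable.trans ih
  have h3 : ∀ q : Option V, (tri h).graph.Reachable (some u) q := by
    rintro (_ | y)
    · exact hu.symm.reachable
    · exact h2 u y
  have : Nonempty (Option V) := ⟨none⟩
  exact ⟨fun p q => (h3 p).symm.trans (h3 q)⟩

end Cf

/-- INS -/
theorem ins : InsStmt := by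
  intro V _ T u v w h1
  have h : Cf T u v w := ⟨h1⟩
  exact ⟨Cf.tri h, fun x y z hf hR => ⟨hf, hR⟩, r1, r2, r3,
    fun x hx hx' hx'' => h.deg_eq hx hx' hx'', h.deg_add (Or.inl rfl),
    h.deg_add (Or.inr (Or.inl rfl)), h.deg_add (Or.inr (Or.inr rfl)), h.deg_none, h.conn⟩

end Pool.Agent.PDM.H19
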